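import Pool.Agent.Helper14.BSC.Stmts

/-!
# ASYK: asymmetric elements of finite fields
-/

set_option autoImplicit false

namespace Pool.Agent.Helper14.BSC

open Finset

/-- sum of the quadratic character over the values `1 - e ^ 2`. -/
theorem asyk_sum (κ : Type) [Field κ] [Fintype κ] [DecidableEq κ] (h2 : ringChar κ ≠ 2)
    (hm : IsSquare (-1 : κ)) :
    ∑ e : κ, quadraticChar κ (1 - e ^ 2) = -1 := by
  have hne : quadraticChar κ ≠ 1 := quadraticChar_ne_one h2
  have h1 : ∑ e : κ, quadraticChar κ (1 - e ^ 2)
      = ∑ s : κ, (quadraticChar κ s + 1) * quadraticChar κ (1 - s) := by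
    rw [← Finset.sum_fiberwise (s := (Finset.univ : Finset κ)) (g := fun e : κ => e ^ 2)]
    refine Finset.sum_congr rfl fun s _ => ?_
    have h3 : ∑ i ∈ (Finset.univ : Finset κ) with i ^ 2 = s, quadraticChar κ (1 - i ^ 2)
        = ∑ i ∈ (Finset.univ : Finset κ) with i ^ 2 = s, quadraticChar κ (1 - s) := by
      refine Finset.sum_congr rfl fun i hi => ?_
      rw [(Finset.mem_filter.mp hi).2]
    rw [h3, Finset.sum_const, nsmul_eq_mul]
    congr 1
    rw [← quadraticChar_card_sqrts h2 s]
    congr 2
    ext i
    simp
  have h4 : jacobiSum (quadraticChar κ) (quadraticChar κ) = -1 := by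
    have h5 := jacobiSum_nontrivial_inv hne
    rw [(quadraticChar_isQuadratic κ).inv] at h5
    rw [h5, quadraticChar_one_iff_isSquare (neg_ne_zero.mpr one_ne_zero) |>.mpr hm]
  have h6 : ∑ s : κ, quadraticChar κ (1 - s) = 0 := by
    have h7 : ∑ s : κ, quadraticChar κ (1 - s) = ∑ s : κ, quadraticChar κ s :=
      Equiv.sum_comp (Equiv.subLeft (1 : κ)) (fun s => quadraticChar κ s)
    rw [h7]
    exact quadraticChar_sum_zero h2
  rw [h1]
  simp only [add_mul, one_mul, Finset.sum_add_distrib]
  rw [h6, add_zero]
  exact h4

theorem st_ASYK : ST_ASYK := by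
  intro κ _ _ hm h2
  classical
  have : Fintype κ := Fintype.ofFinite κ
  by_contra hcon
  push Not at hcon
  have hsum := asyk_sum κ h2 hm
  have hz : ∑ e : κ, quadraticChar κ e = 0 := quadraticChar_sum_zero h2
  have hle : ∑ e : κ, -quadraticChar κ e ≤ ∑ e : κ, quadraticChar κ (1 - e ^ 2) := by
    refine Finset.sum_le_sum fun e _ => ?_
    by_cases he : IsSquare e
    · by_cases h0 : e = 0
      · subst h0
        simp
      · rw [(quadraticChar_one_iff_isSquare h0).mpr he]
        by_cases h1 : (1 - e ^ 2 : κ) = 0
        · rw [h1]
          simp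
        · rcases quadraticChar_dichotomy h1 with h | h <;> rw [h]
          norm_num
    · rw [quadraticChar_neg_one_iff_not_isSquare.mpr he]
      have hne : ¬ IsSquare (-e) := by
        intro h
        apply he
        have h3 := hm.mul h
        simpa using h3
      have hp : (1 + e : κ) ≠ 0 := by
        intro h
        apply he
        have : e = -1 := by linear_combination h
        rw [this]
        exact hm
      have hq : (1 - e : κ) ≠ 0 := by
        intro h
        apply he
        have : e = 1 := by linear_combination -h
        rw [this]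
        exact IsSquare.one
      have hiff : quadraticChar κ (1 + e) = quadraticChar κ (1 - e) := by
        by_cases h4 : IsSquare (1 + e)
        · rw [(quadraticChar_one_iff_isSquare hp).mpr h4,
            (quadraticChar_one_iff_isSquare hq).mpr (hcon e he h4)]
        · have h5 : ¬ IsSquare (1 - e) := by
            intro h6
            apply h4
            have h7 := hcon (-e) hne (by rwa [← sub_eq_add_neg])
            rwa [sub_neg_eq_add] at h7
          rw [quadraticChar_neg_one_iff_not_isSquare.mpr h4,
            quadraticChar_neg_one_iff_not_isSquare.mpr h5]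
      have h8 : (1 - e ^ 2 : κ) = (1 + e) * (1 - e) := by ring
      rw [h8, map_mul, hiff]
      rcases quadraticChar_dichotomy hq with h | h <;> rw [h] <;> norm_num
  rw [Finset.sum_neg_distrib, hz, hsum] at hle
  norm_num at hle

end Pool.Agent.Helper14.BSC
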