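import Pool.Agent.Helper14.BSC.Stmts

/-!
# WDK: weird elements of finite fields
-/

set_option autoImplicit false

namespace Pool.Agent.Helper14.BSC

/-- the cubic class of the elements of a finite field with a primitive cube root of unity -/
theorem wdk_cl (κ : Type) [Field κ] [Finite κ] (hw : ∃ w : κ, IsPrimitiveRoot w 3) :
    ∃ cl : κ → ZMod 3, (∀ x y : κ, x ≠ 0 → y ≠ 0 → cl (x * y) = cl x + cl y) ∧
      ∀ x : κ, x ≠ 0 → (cl x = 0 ↔ C3 x) := by
  classical
  obtain ⟨w, hw⟩ := hw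
  obtain ⟨g, hg⟩ := IsCyclic.exists_ofOrder_eq_natCard (α := κˣ)
  have hgen : ∀ u : κˣ, ∃ k : ℕ, u = g ^ k := by
    intro u
    have h1 : u ∈ Subgroup.zpowers g := by
      have h2 : Subgroup.zpowers g = ⊤ := by
        rw [← Subgroup.card_eq_iff_eq_top, Nat.card_zpowers, hg]
      rw [h2]
      exact Subgroup.mem_top _
    obtain ⟨k, hk⟩ := (mem_zpowers_iff_mem_range_orderOf.mp h1 |> Finset.mem_image.mp)
    exact ⟨k, hk.2.symm⟩
  have h3 : 3 ∣ orderOf g := by
    rw [hg]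
    have hw0 : w ≠ 0 := hw.ne_zero (by norm_num)
    have h4 : orderOf (Units.mk0 w hw0) = 3 := by
      rw [← orderOf_units, Units.val_mk0]
      exact hw.eq_orderOf.symm
    rw [← h4]
    exact orderOf_dvd_natCard _
  have hex : ∀ x : κ, ∃ k : ℕ, x ≠ 0 → x = ((g ^ k : κˣ) : κ) := by
    intro x
    by_cases hx : x = 0
    · exact ⟨0, fun h => absurd hx h⟩
    · obtain ⟨k, hk⟩ := hgen (Units.mk0 x hx)
      exact ⟨k, fun _ => by rw [← hk, Units.val_mk0]⟩
  choose lg hlg using hex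
  refine ⟨fun x => (lg x : ZMod 3), ?_, ?_⟩
  · intro x y hx hy
    have h5 := hlg (x * y) (mul_ne_zero hx hy)
    have h6 : ((g ^ lg (x * y) : κˣ) : κ) = ((g ^ (lg x + lg y) : κˣ) : κ) := by
      rw [← h5, pow_add, Units.val_mul, ← hlg x hx, ← hlg y hy]
    have h7 : g ^ lg (x * y) = g ^ (lg x + lg y) := Units.ext h6
    have h8 : lg (x * y) ≡ lg x + lg y [MOD 3] :=
      (pow_eq_pow_iff_modEq.mp h7).of_dvd h3
    have h9 := (ZMod.natCast_eq_natCast_iff _ _ _).mpr h8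
    simpa using h9
  · intro x hx
    constructor
    · intro h
      obtain ⟨m, hm⟩ := (ZMod.natCast_eq_zero_iff _ _).mp h
      refine ⟨((g ^ m : κˣ) : κ), ?_⟩
      rw [← Units.val_pow_eq_pow_val, ← pow_mul, mul_comm, ← hm]
      exact hlg x hx
    · rintro ⟨y, hy⟩
      have hy0 : y ≠ 0 := by
        rintro rfl
        exact hx (by rw [hy]; norm_num)
      have h6 : ((g ^ lg x : κˣ) : κ) = ((g ^ (lg y * 3) : κˣ) : κ) := by
        rw [← hlg x hx, pow_mul, Units.val_pow_eq_pow_val, ← hlg y hy0, hy]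
      have h7 : g ^ lg x = g ^ (lg y * 3) := Units.ext h6
      have h8 : lg x ≡ lg y * 3 [MOD 3] := (pow_eq_pow_iff_modEq.mp h7).of_dvd h3
      have h9 : lg x ≡ 0 [MOD 3] := h8.trans (Nat.modEq_zero_iff_dvd.mpr (Dvd.intro_left _ rfl))
      exact (ZMod.natCast_eq_zero_iff _ _).mpr (Nat.modEq_zero_iff_dvd.mp h9)

theorem wdk_dec1 : ∀ a b : ZMod 3, a ≠ 0 → b ≠ 2 * a → b ≠ 0 → b = a := by decide

theorem wdk_dec2 : ∀ a b c s : ZMod 3, a ≠ b → b ≠ c → a ≠ c → (s = a ∨ s = c) →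
    (s = a ∨ s = b) → (s = c ∨ s = b) → False := by decide

theorem st_WDK : ST_WDK := by
  intro κ _ _ hw
  obtain ⟨cl, hmul, hC⟩ := wdk_cl κ hw
  by_contra hcon
  push Not at hcon
  have hone : cl 1 = 0 := (hC 1 one_ne_zero).mpr ⟨1, by norm_num⟩
  have hneg : cl (-1) = 0 := (hC (-1) (neg_ne_zero.mpr one_ne_zero)).mpr ⟨-1, by norm_num⟩
  have hcne : ∀ x y : κ, x ≠ 0 → y ≠ 0 → cl x ≠ cl y → x + y ≠ 0 := by
    intro x y hx hy hne h
    apply hne
    have h1 : x = -1 * y := by linear_combination h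
    rw [h1, hmul _ _ (neg_ne_zero.mpr one_ne_zero) hy, hneg, zero_add]
  have hinv : ∀ x : κ, x ≠ 0 → cl x⁻¹ = -cl x := by
    intro x hx
    have h1 := hmul x x⁻¹ hx (inv_ne_zero hx)
    rw [mul_inv_cancel₀ hx, hone] at h1
    exact (neg_eq_of_add_eq_zero_right h1.symm).symm
  -- the basic alternative
  have hbas : ∀ e : κ, e ≠ 0 → cl e ≠ 0 → cl (1 + e) = 0 ∨ cl (1 + e) = cl e := by
    intro e he hce
    have hs : (1 + e : κ) ≠ 0 := hcne 1 e one_ne_zero he (by rw [hone]; exact hce.symm)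
    by_contra h
    push Not at h
    have h2 : cl (1 + e) = 2 * cl e := by
      by_contra h3
      exact h.2 (wdk_dec1 (cl e) (cl (1 + e)) hce h3 h.1)
    have h4 : (1 + e) * (e ^ 2)⁻¹ ≠ 0 := mul_ne_zero hs (inv_ne_zero (pow_ne_zero 2 he))
    have h5 : cl ((1 + e) * (e ^ 2)⁻¹) = 0 := by
      rw [hmul _ _ hs (inv_ne_zero (pow_ne_zero 2 he)), hinv _ (pow_ne_zero 2 he), pow_two,
        hmul _ _ he he, h2]
      ring
    obtain ⟨y, hy⟩ := (hC _ h4).mp h5
    have hy0 : y ≠ 0 := by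
      rintro rfl
      exact h4 (by rw [hy]; norm_num)
    refine hcon e (fun hc => hce ((hC e he).mpr hc)) y hy0 ?_
    rw [← hy]
    field_simp
  have hbas2 : ∀ a b : κ, a ≠ 0 → b ≠ 0 → cl a ≠ cl b → cl (a + b) = cl a ∨ cl (a + b) = cl b := by
    intro a b ha hb hab
    have he : a⁻¹ * b ≠ 0 := mul_ne_zero (inv_ne_zero ha) hb
    have h1 : cl (a⁻¹ * b) = cl b - cl a := by
      rw [hmul _ _ (inv_ne_zero ha) hb, hinv a ha]
      ring
    have h2 := hbas (a⁻¹ * b) he (by rw [h1]; exact sub_ne_zero.mpr hab.symm)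
    have h3 : a + b = a * (1 + a⁻¹ * b) := by
      field_simp
    have h4 : (1 + a⁻¹ * b) ≠ 0 :=
      hcne 1 _ one_ne_zero he (by rw [h1, hone]; exact (sub_ne_zero.mpr hab.symm).symm)
    rw [h3, hmul _ _ ha h4]
    rcases h2 with h2 | h2
    · left
      rw [h2, add_zero]
    · right
      rw [h2, h1]
      ring
  -- transitivity
  have htr : ∀ a b c : κ, a ≠ 0 → b ≠ 0 → c ≠ 0 → cl a ≠ cl b → cl b ≠ cl c → cl a ≠ cl c →
      cl (a + b) = cl a → cl (b + c) = cl b → cl (a + c) = cl a := by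
    intro a b c ha hb hc hab hbc hac h1 h2
    by_contra h3
    have h4 : cl (a + c) = cl c := (hbas2 a c ha hc hac).resolve_left h3
    have hsab := hcne a b ha hb hab
    have hsbc := hcne b c hb hc hbc
    have hsac := hcne a c ha hc hac
    have k1 := hbas2 (a + b) c hsab hc (by rw [h1]; exact hac)
    have k2 := hbas2 a (b + c) ha hsbc (by rw [h2]; exact hab)
    have k3 := hbas2 (a + c) b hsac hb (by rw [h4]; exact hbc.symm)
    rw [h1] at k1
    rw [h2, ← add_assoc] at k2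
    rw [h4, show a + c + b = a + b + c by ring] at k3
    exact wdk_dec2 _ _ _ _ hab hbc hac k1 k2 k3
  -- an element `e` with `1 + e` a cube
  obtain ⟨e, he, hce, h1e⟩ : ∃ e : κ, e ≠ 0 ∧ cl e ≠ 0 ∧ cl (1 + e) = 0 := by
    obtain ⟨e, he, hce⟩ : ∃ e : κ, e ≠ 0 ∧ cl e ≠ 0 := by
      by_contra h
      push Not at h
      -- all nonzero elements are cubes: impossible
      have hsurj : ∀ x : κ, ∃ y : κ, y ^ 3 = x := by
        intro x
        by_cases hx : x = 0
        · exact ⟨0, by rw [hx]; norm_num⟩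
        · obtain ⟨y, hy⟩ := (hC x hx).mp (h x hx)
          exact ⟨y, hy.symm⟩
      have hinj : Function.Injective (fun y : κ => y ^ 3) :=
        Finite.injective_iff_surjective.mpr hsurj
      obtain ⟨w, hw⟩ := hw
      have h5 : w = 1 := hinj (by simp [hw.pow_eq_one])
      rw [h5] at hw
      have h6 := hw.eq_orderOf
      rw [orderOf_one] at h6
      norm_num at h6
    rcases hbas e he hce with h | h
    · exact ⟨e, he, hce, h⟩
    · refine ⟨e⁻¹, inv_ne_zero he, by rw [hinv e he]; exact neg_ne_zero.mpr hce, ?_⟩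
      have hs : (1 + e : κ) ≠ 0 := hcne 1 e one_ne_zero he (by rw [hone]; exact hce.symm)
      have h6 : (1 + e⁻¹ : κ) = (1 + e) * e⁻¹ := by
        field_simp
        ring
      rw [h6, hmul _ _ hs (inv_ne_zero he), hinv e he, h]
      ring
  have hpow : ∀ m : ℕ, cl (e ^ m) = m * cl e := by
    intro m
    induction m with
    | zero => simpa using hone
    | succ m ih =>
      rw [pow_succ, hmul _ _ (pow_ne_zero m he) he, ih]
      push_cast
      ring
  -- transitivity for the powers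
  have hstep : ∀ m k : ℕ, (m : ZMod 3) ≠ 0 → (k : ZMod 3) ≠ 0 → ((m + k : ℕ) : ZMod 3) ≠ 0 →
      cl (1 + e ^ m) = 0 → cl (1 + e ^ k) = 0 → cl (1 + e ^ (m + k)) = 0 := by
    intro m k hm hk hmk h1 h2
    have hcm : ∀ j : ℕ, (j : ZMod 3) ≠ 0 → cl (e ^ j) ≠ 0 := by
      intro j hj
      rw [hpow j]
      exact mul_ne_zero hj hce
    have hs : (1 + e ^ k : κ) ≠ 0 := hcne 1 _ one_ne_zero (pow_ne_zero k he)
      (by rw [hone]; exact (hcm k hk).symm)
    have h3 : cl (e ^ m + e ^ (m + k)) = cl (e ^ m) := by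
      have h4 : e ^ m + e ^ (m + k) = e ^ m * (1 + e ^ k) := by ring
      rw [h4, hmul _ _ (pow_ne_zero m he) hs, h2, add_zero]
    have h5 := htr 1 (e ^ m) (e ^ (m + k)) one_ne_zero (pow_ne_zero m he)
      (pow_ne_zero (m + k) he) (by rw [hone]; exact (hcm m hm).symm)
      (by
        rw [pow_add, hmul _ _ (pow_ne_zero m he) (pow_ne_zero k he)]
        intro h6
        exact hcm k hk (left_eq_add.mp h6))
      (by rw [hone]; exact (hcm (m + k) hmk).symm) (by rw [h1, hone]) h3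
    rw [h5, hone]
  have hall : ∀ j : ℕ, cl (1 + e ^ (3 * j + 1)) = 0 ∧ cl (1 + e ^ (3 * j + 2)) = 0 := by
    have z1 : ((1 : ℕ) : ZMod 3) ≠ 0 := by decide
    have z2 : ((2 : ℕ) : ZMod 3) ≠ 0 := by decide
    have z3 : ((3 : ℕ) : ZMod 3) = 0 := by decide
    have hb1 : cl (1 + e ^ 1) = 0 := by rwa [pow_one]
    have hb2 : cl (1 + e ^ 2) = 0 := hstep 1 1 z1 z1 z2 hb1 hb1
    have y1 : ∀ j : ℕ, ((3 * j + 1 : ℕ) : ZMod 3) ≠ 0 := by
      intro j
      rw [Nat.cast_add, Nat.cast_mul, z3, zero_mul, zero_add]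
      exact z1
    have y2 : ∀ j : ℕ, ((3 * j + 2 : ℕ) : ZMod 3) ≠ 0 := by
      intro j
      rw [Nat.cast_add, Nat.cast_mul, z3, zero_mul, zero_add]
      exact z2
    intro j
    induction j with
    | zero => exact ⟨hb1, hb2⟩
    | succ j ih =>
      have h6 : cl (1 + e ^ (3 * (j + 1) + 1)) = 0 :=
        hstep (3 * j + 2) 2 (y2 j) z2 (y1 (j + 1)) ih.2 hb2
      exact ⟨h6, hstep (3 * (j + 1) + 1) 1 (y1 (j + 1)) z1 (y2 (j + 1)) h6 hb1⟩
  -- the inverse of `e` is a power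
  have hord : ∃ n : ℕ, 0 < n ∧ e ^ n = 1 := by
    have h7 : IsOfFinOrder e := isOfFinOrder_iff_pow_eq_one.mpr (by
      have := isOfFinOrder_of_finite (Units.mk0 e he)
      obtain ⟨n, hn, h8⟩ := isOfFinOrder_iff_pow_eq_one.mp this
      refine ⟨n, hn, ?_⟩
      have h9 := congrArg Units.val h8
      simpa using h9)
    exact isOfFinOrder_iff_pow_eq_one.mp h7
  obtain ⟨n, hn, hen⟩ := hord
  have h10 : e ^ (3 * (n - 1) + 2) = e⁻¹ := by
    apply eq_inv_of_mul_eq_one_left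
    rw [← pow_succ, show 3 * (n - 1) + 2 + 1 = n * 3 by omega, pow_mul, hen, one_pow]
  have h11 := (hall (n - 1)).2
  rw [h10] at h11
  have hs : (1 + e : κ) ≠ 0 := hcne 1 e one_ne_zero he (by rw [hone]; exact hce.symm)
  have h6 : (1 + e⁻¹ : κ) = (1 + e) * e⁻¹ := by
    field_simp
    ring
  rw [h6, hmul _ _ hs (inv_ne_zero he), hinv e he, h1e, zero_add] at h11
  exact hce (neg_eq_zero.mp h11)

end Pool.Agent.Helper14.BSC
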